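import Pool.Agent.helper95.FI.SpecV

/-!
# Row fi:LMS: the Siegel-Walfisz property for characters
-/

set_option autoImplicit false

open Finset

namespace Pool.Agent.FI

/-- The number of prime factors. -/
theorem LMS_omega (k x : ℕ) (hk : 1 ≤ k) (hkx : k ≤ x ^ 3) :
    (k.primeFactors.card : ℝ) ≤ 5 * Real.log x := by
  have h1 : 2 ^ k.primeFactors.card ≤ ∏ p ∈ k.primeFactors, p :=
    Finset.pow_card_le_prod _ _ _ fun p hp => (Nat.prime_of_mem_primeFactors hp).two_le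
  have h2 : ∏ p ∈ k.primeFactors, p ≤ k := Nat.le_of_dvd hk (Nat.prod_primeFactors_dvd k)
  have h3 : (2 : ℝ) ^ k.primeFactors.card ≤ (x : ℝ) ^ 3 := by exact_mod_cast h1.trans (h2.trans hkx)
  have h4 : (k.primeFactors.card : ℝ) * Real.log 2 ≤ 3 * Real.log x := by
    have h := Real.log_le_log (by positivity) h3
    rw [Real.log_pow, Real.log_pow] at h
    exact_mod_cast h
  have h5 := Real.log_two_gt_d9
  have h6 : 0 ≤ Real.log x := Real.log_natCast_nonneg x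
  have h7 : (0 : ℝ) ≤ k.primeFactors.card := Nat.cast_nonneg _
  nlinarith

/-- Multiples in an interval. -/
theorem LMS_cnt (x u₁ u₂ g : ℕ) (hg : 0 < g) (h1 : x ≤ u₁) (h3 : u₂ ≤ 2 * x) :
    ((#{l ∈ Ioc (u₁ : ℤ) u₂ | (g : ℤ) ∣ l} : ℕ) : ℝ) ≤ x / g + 1 := by
  have hg' : (0 : ℤ) < g := by exact_mod_cast hg
  have hgr : (0 : ℝ) < g := by exact_mod_cast hg
  have hgq : (0 : ℚ) < g := by exact_mod_cast hg
  have hsub : {l ∈ Ioc (u₁ : ℤ) u₂ | (g : ℤ) ∣ l} ⊆ {l ∈ Ioc (x : ℤ) (2 * x) | (g : ℤ) ∣ l} := by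
    apply filter_subset_filter
    apply Ioc_subset_Ioc
    · exact_mod_cast h1
    · exact_mod_cast h3
  have h4 := card_le_card hsub
  have h5 := Int.Ioc_filter_dvd_card (x : ℤ) (2 * x) hg'
  have h6 : ((#{l ∈ Ioc (x : ℤ) (2 * x) | (g : ℤ) ∣ l} : ℤ) : ℚ) ≤ x / g + 1 := by
    rw [h5]
    push_cast
    apply max_le
    · have h7 := Int.floor_le ((2 * (x : ℚ)) / g)
      have h8 := Int.lt_floor_add_one ((x : ℚ) / g)
      have h9 : (2 * (x : ℚ)) / g = 2 * (x / g) := by ring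
      linarith
    · positivity
  have h10 : ((#{l ∈ Ioc (x : ℤ) (2 * x) | (g : ℤ) ∣ l} : ℕ) : ℝ) ≤ x / g + 1 := by
    have h11 : ((#{l ∈ Ioc (x : ℤ) (2 * x) | (g : ℤ) ∣ l} : ℕ) : ℚ) ≤ x / g + 1 := by exact_mod_cast h6
    have h13 := (Rat.cast_le (K := ℝ)).2 h11
    push_cast at h13 ⊢
    exact h13
  have h12 : ((#{l ∈ Ioc (u₁ : ℤ) u₂ | (g : ℤ) ∣ l} : ℕ) : ℝ) ≤
      (#{l ∈ Ioc (x : ℤ) (2 * x) | (g : ℤ) ∣ l} : ℕ) := by exact_mod_cast h4
  exact h12.trans h10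

/-- The sum over all `l`. -/
theorem LMS_all (x q : ℕ) (Q S : ℝ) (lm : ℤ → ℝ) (hS : SAh x Q S lm) (hq : 1 ≤ q) (hqQ : (q : ℝ) ≤ Q)
    (ψ : DirichletCharacter ℂ q) (u₁ u₂ : ℕ) (h1 : x ≤ u₁) (h2 : u₁ ≤ u₂) (h3 : u₂ ≤ 2 * x) :
    ‖∑ l ∈ Ioc (u₁ : ℤ) u₂, (lm l : ℂ) * ψ (l : ZMod q)‖ ≤ q * (2 * S) := by
  have hq0 : (0 : ℤ) < q := by exact_mod_cast hq
  have hmaps : ∀ l ∈ Ioc (u₁ : ℤ) u₂, (l % (q : ℤ)).toNat ∈ range q := by
    intro l _
    rw [mem_range]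
    have ha := Int.emod_nonneg l hq0.ne'
    have hb := Int.emod_lt_of_pos l hq0
    omega
  rw [← sum_fiberwise_of_maps_to hmaps]
  have hc : ∀ c ∈ range q, ‖∑ l ∈ Ioc (u₁ : ℤ) u₂ with (l % (q : ℤ)).toNat = c,
      (lm l : ℂ) * ψ (l : ZMod q)‖ ≤ 2 * S := by
    intro c hc
    have hcq := mem_range.1 hc
    have e1 : ∑ l ∈ Ioc (u₁ : ℤ) u₂ with (l % (q : ℤ)).toNat = c, (lm l : ℂ) * ψ (l : ZMod q) =
        ((∑ l ∈ Ioc (u₁ : ℤ) u₂ with (q : ℤ) ∣ l - c, lm l : ℝ) : ℂ) * ψ (c : ZMod q) := by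
      push_cast
      rw [sum_mul]
      refine sum_congr ?_ ?_
      · apply filter_congr
        intro l _
        have ha := Int.emod_nonneg l hq0.ne'
        have hb := Int.emod_lt_of_pos l hq0
        have hc0 : (c : ℤ) % q = c := Int.emod_eq_of_lt (by omega) (by omega)
        have key : (q : ℤ) ∣ l - c ↔ l % (q : ℤ) = (c : ℤ) % q := by
          rw [Int.emod_eq_emod_iff_emod_sub_eq_zero, Int.dvd_iff_emod_eq_zero]
        rw [key, hc0]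
        omega
      · intro l hl
        rw [mem_filter] at hl
        have h5 : ((l : ℤ) : ZMod q) = ((c : ℤ) : ZMod q) := by
          rw [ZMod.intCast_eq_intCast_iff_dvd_sub]
          have := hl.2
          rw [← neg_sub]
          exact (dvd_neg).2 this
        rw [h5, Int.cast_natCast]
    rw [e1, norm_mul, Complex.norm_real, Real.norm_eq_abs]
    have h6 : ‖ψ (c : ZMod q)‖ ≤ 1 := ψ.norm_le_one _
    have h7 := hS q hq hqQ c u₂ (h1.trans h2) h3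
    have h8 := hS q hq hqQ c u₁ h1 (h2.trans h3)
    have h9 : ∑ l ∈ Ioc (u₁ : ℤ) u₂ with (q : ℤ) ∣ l - c, lm l =
        ∑ l ∈ Ioc (x : ℤ) u₂ with (q : ℤ) ∣ l - c, lm l - ∑ l ∈ Ioc (x : ℤ) u₁ with (q : ℤ) ∣ l - c, lm l := by
      have hx1 : (x : ℤ) ≤ u₁ := by exact_mod_cast h1
      have hx2 : (u₁ : ℤ) ≤ u₂ := by exact_mod_cast h2
      rw [eq_sub_iff_add_eq, add_comm, ← sum_union]
      · rw [← filter_union, Ioc_union_Ioc_eq_Ioc hx1 hx2]
      · apply disjoint_filter_filter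
        rw [disjoint_left]
        intro l hl hl'
        rw [mem_Ioc] at hl hl'
        omega
    have h10 : |∑ l ∈ Ioc (u₁ : ℤ) u₂ with (q : ℤ) ∣ l - c, lm l| ≤ 2 * S := by
      rw [h9]
      refine (abs_sub _ _).trans ?_
      linarith
    have hS0 : 0 ≤ 2 * S := (abs_nonneg _).trans h10
    calc |∑ l ∈ Ioc (u₁ : ℤ) u₂ with (q : ℤ) ∣ l - c, lm l| * ‖ψ (c : ZMod q)‖
        ≤ (2 * S) * 1 := mul_le_mul h10 h6 (norm_nonneg _) hS0
      _ = 2 * S := mul_one _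
  calc ‖∑ c ∈ range q, ∑ l ∈ Ioc (u₁ : ℤ) u₂ with (l % (q : ℤ)).toNat = c,
      (lm l : ℂ) * ψ (l : ZMod q)‖ ≤ ∑ c ∈ range q, (2 * S) := norm_sum_le_of_le _ hc
    _ = q * (2 * S) := by
      rw [sum_const, card_range, nsmul_eq_mul]

open scoped Classical in
/-- The number of the `l` which are not prime to `k`. -/
theorem LMS_bad (x Z k : ℕ) (M : ℝ) (lm : ℤ → ℝ) (hlm : LamOK x Z M lm) (hZ : 1 ≤ Z) (hk : 1 ≤ k)
    (hkx : k ≤ x ^ 3) (u₁ u₂ : ℕ) (h1 : x ≤ u₁) (h3 : u₂ ≤ 2 * x) :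
    (#{l ∈ Ioc (u₁ : ℤ) u₂ | lm l ≠ 0 ∧ ¬ IsCoprime l (k : ℤ)} : ℝ) ≤
      5 * Real.log x * (x / Z + 1) := by
  have hZr : (0 : ℝ) < Z := by exact_mod_cast hZ
  have hsub : {l ∈ Ioc (u₁ : ℤ) u₂ | lm l ≠ 0 ∧ ¬ IsCoprime l (k : ℤ)} ⊆
      (k.primeFactors.filter (fun g => Z < g)).biUnion fun g => {l ∈ Ioc (u₁ : ℤ) u₂ | (g : ℤ) ∣ l} := by
    intro l hl
    rw [mem_filter] at hl
    obtain ⟨hl1, hl2, hl3⟩ := hl
    rw [Int.isCoprime_iff_gcd_eq_one] at hl3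
    obtain ⟨g, hg, hgd⟩ := Nat.exists_prime_and_dvd hl3
    have hgl : (g : ℤ) ∣ l := (Int.natCast_dvd_natCast.2 hgd).trans (Int.gcd_dvd_left l k)
    have hgk : (g : ℤ) ∣ (k : ℤ) := (Int.natCast_dvd_natCast.2 hgd).trans (Int.gcd_dvd_right l k)
    rw [mem_biUnion]
    refine ⟨g, ?_, ?_⟩
    · rw [mem_filter, Nat.mem_primeFactors]
      refine ⟨⟨hg, Int.natCast_dvd_natCast.1 hgk, by omega⟩, ?_⟩
      by_contra hc
      push Not at hc
      exact (hlm.2 l hl2).2.2 g hg hc hgl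
    · rw [mem_filter]
      exact ⟨hl1, hgl⟩
  have hcard : (#{l ∈ Ioc (u₁ : ℤ) u₂ | lm l ≠ 0 ∧ ¬ IsCoprime l (k : ℤ)} : ℝ) ≤
      ∑ g ∈ k.primeFactors.filter (fun g => Z < g), ((#{l ∈ Ioc (u₁ : ℤ) u₂ | (g : ℤ) ∣ l} : ℕ) : ℝ) := by
    have := (card_le_card hsub).trans card_biUnion_le
    exact_mod_cast this
  refine hcard.trans ?_
  have hL : 0 ≤ Real.log x := Real.log_natCast_nonneg x
  calc ∑ g ∈ k.primeFactors.filter (fun g => Z < g), ((#{l ∈ Ioc (u₁ : ℤ) u₂ | (g : ℤ) ∣ l} : ℕ) : ℝ)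
      ≤ ∑ g ∈ k.primeFactors.filter (fun g => Z < g), ((x : ℝ) / Z + 1) := by
        refine sum_le_sum fun g hg => ?_
        rw [mem_filter] at hg
        have hg0 : 0 < g := by omega
        refine (LMS_cnt x u₁ u₂ g hg0 h1 h3).trans ?_
        have h4 : (Z : ℝ) ≤ g := by exact_mod_cast hg.2.le
        have h5 : (x : ℝ) / g ≤ x / Z := div_le_div_of_nonneg_left (by positivity) hZr h4
        linarith
    _ = ((k.primeFactors.filter (fun g => Z < g)).card : ℝ) * ((x : ℝ) / Z + 1) := by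
        rw [sum_const, nsmul_eq_mul]
    _ ≤ (5 * Real.log x) * ((x : ℝ) / Z + 1) := by
        refine mul_le_mul_of_nonneg_right ?_ (by positivity)
        refine le_trans ?_ (LMS_omega k x hk hkx)
        exact_mod_cast card_filter_le _ _

/-- **Row fi:LMS.** -/
theorem LMS : LMS_stmt := by
  classical
  intro E
  have htend : Filter.Tendsto (fun x : ℕ => Real.log (x : ℝ)) Filter.atTop Filter.atTop :=
    Real.tendsto_log_atTop.comp tendsto_natCast_atTop_atTop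
  have hlit : ∀ᶠ x : ℕ in Filter.atTop, 20 * Real.log (x : ℝ) ^ (E + 2) ≤ x := by
    have h := (Real.isLittleO_pow_log_id_atTop (n := E + 2)).bound (show (0 : ℝ) < 1 / 20 by norm_num)
    have h' := tendsto_natCast_atTop_atTop (R := ℝ) |>.eventually h
    filter_upwards [h'] with x hx
    rw [Real.norm_eq_abs, Real.norm_eq_abs, id] at hx
    have h1 := (le_abs_self _).trans hx
    have h2 : |(x : ℝ)| = x := abs_of_nonneg (Nat.cast_nonneg x)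
    rw [h2] at h1
    linarith
  obtain ⟨x₀, hx₀⟩ := Filter.eventually_atTop.1 ((htend.eventually_ge_atTop 4).and hlit)
  refine ⟨x₀, fun x hx Z lm hZ hlm hS q k hq hqQ hk hkx ψ _ u₁ u₂ h1 h2 h3 => ?_⟩
  obtain ⟨hL4, hL⟩ := hx₀ x hx
  set L : ℝ := Real.log x with hLdef
  have hL0 : 0 < L := by linarith
  have hZr : (0 : ℝ) < Z := lt_of_lt_of_le (by positivity) hZ
  have hZ1 : 1 ≤ Z := by
    have : 0 < Z := by exact_mod_cast hZr
    omega
  have hx0 : (0 : ℝ) ≤ x := Nat.cast_nonneg x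
  -- the two parts
  have hsplit : ∑ l ∈ Ioc (u₁ : ℤ) u₂ with IsCoprime l (k : ℤ), (lm l : ℂ) * ψ (l : ZMod q) =
      ∑ l ∈ Ioc (u₁ : ℤ) u₂, (lm l : ℂ) * ψ (l : ZMod q) -
        ∑ l ∈ Ioc (u₁ : ℤ) u₂ with ¬ IsCoprime l (k : ℤ), (lm l : ℂ) * ψ (l : ZMod q) := by
    rw [eq_sub_iff_add_eq]
    exact sum_filter_add_sum_filter_not _ _ _
  have hA : ‖∑ l ∈ Ioc (u₁ : ℤ) u₂, (lm l : ℂ) * ψ (l : ZMod q)‖ ≤
      q * (2 * (x / L ^ (2 * E + 2))) := by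
    refine LMS_all x q (L ^ (2 * E + 2)) _ lm hS hq (hqQ.trans ?_) ψ u₁ u₂ h1 h2 h3
    exact pow_le_pow_right₀ (by linarith) (by omega)
  have hB : ‖∑ l ∈ Ioc (u₁ : ℤ) u₂ with ¬ IsCoprime l (k : ℤ), (lm l : ℂ) * ψ (l : ZMod q)‖ ≤
      (5 * L * (x / Z + 1)) * (2 * L) := by
    have e : ∑ l ∈ Ioc (u₁ : ℤ) u₂ with ¬ IsCoprime l (k : ℤ), (lm l : ℂ) * ψ (l : ZMod q) =
        ∑ l ∈ Ioc (u₁ : ℤ) u₂ with lm l ≠ 0 ∧ ¬ IsCoprime l (k : ℤ), (lm l : ℂ) * ψ (l : ZMod q) := by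
      symm
      apply sum_subset
      · intro l hl
        rw [mem_filter] at hl ⊢
        exact ⟨hl.1, hl.2.2⟩
      · intro l hl hl'
        rw [mem_filter] at hl hl'
        have h0 : lm l = 0 := by
          by_contra hc
          exact hl' ⟨hl.1, hc, hl.2⟩
        rw [h0, Complex.ofReal_zero, zero_mul]
    rw [e]
    calc ‖∑ l ∈ Ioc (u₁ : ℤ) u₂ with lm l ≠ 0 ∧ ¬ IsCoprime l (k : ℤ), (lm l : ℂ) * ψ (l : ZMod q)‖
        ≤ ∑ l ∈ Ioc (u₁ : ℤ) u₂ with lm l ≠ 0 ∧ ¬ IsCoprime l (k : ℤ), (2 * L) := by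
          refine norm_sum_le_of_le _ fun l _ => ?_
          rw [norm_mul, Complex.norm_real, Real.norm_eq_abs]
          calc |lm l| * ‖ψ (l : ZMod q)‖ ≤ (2 * L) * 1 :=
                mul_le_mul (hlm.1 l) (ψ.norm_le_one _) (norm_nonneg _) (by linarith)
            _ = 2 * L := mul_one _
      _ = (#{l ∈ Ioc (u₁ : ℤ) u₂ | lm l ≠ 0 ∧ ¬ IsCoprime l (k : ℤ)} : ℝ) * (2 * L) := by
          rw [sum_const, nsmul_eq_mul]
      _ ≤ (5 * L * (x / Z + 1)) * (2 * L) :=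
          mul_le_mul_of_nonneg_right (LMS_bad x Z k _ lm hlm hZ1 hk hkx u₁ u₂ h1 h3) (by linarith)
  rw [hsplit]
  refine (norm_sub_le _ _).trans ((add_le_add hA hB).trans ?_)
  -- the arithmetic
  set P : ℝ := L ^ E with hP
  have hP0 : 0 < P := by positivity
  have e1 : L ^ (2 * E + 2) = P * P * L ^ 2 := by
    rw [hP]
    ring
  have e2 : L ^ (E + 5) = P * L ^ 5 := by
    rw [hP]
    ring
  have e3 : L ^ (E + 2) = P * L ^ 2 := by
    rw [hP]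
    ring
  have hxP : 0 ≤ x / P := by positivity
  have t1 : (q : ℝ) * (2 * (x / L ^ (2 * E + 2))) ≤ 1 / 8 * (x / P) := by
    calc (q : ℝ) * (2 * (x / L ^ (2 * E + 2))) ≤ P * (2 * (x / L ^ (2 * E + 2))) :=
          mul_le_mul_of_nonneg_right hqQ (by positivity)
      _ = 2 / L ^ 2 * (x / P) := by
          rw [e1]
          field_simp
      _ ≤ 1 / 8 * (x / P) := by
          refine mul_le_mul_of_nonneg_right ?_ hxP
          rw [div_le_iff₀ (by positivity)]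
          nlinarith
  have t2 : (5 * L * (x / Z + 1)) * (2 * L) ≤ 1 / 4 * (x / P) + 1 / 2 * (x / P) := by
    have h4 : (x : ℝ) / Z ≤ x / (P * L ^ 5) := by
      rw [← e2]
      exact div_le_div_of_nonneg_left hx0 (by positivity) hZ
    have h5 : 10 * L ^ 2 * (x / (P * L ^ 5)) ≤ 1 / 4 * (x / P) := by
      have e4 : 10 * L ^ 2 * (x / (P * L ^ 5)) = 10 / L ^ 3 * (x / P) := by
        field_simp
      rw [e4]
      refine mul_le_mul_of_nonneg_right ?_ hxP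
      rw [div_le_iff₀ (by positivity)]
      nlinarith [sq_nonneg (L - 4), mul_pos hL0 hL0]
    have h6 : 10 * L ^ 2 ≤ 1 / 2 * (x / P) := by
      rw [e3] at hL
      have e5 : 1 / 2 * ((x : ℝ) / P) = x / (2 * P) := by field_simp
      rw [e5, le_div_iff₀ (by positivity)]
      linarith
    calc (5 * L * (x / Z + 1)) * (2 * L) = 10 * L ^ 2 * (x / Z) + 10 * L ^ 2 := by ring
      _ ≤ 10 * L ^ 2 * (x / (P * L ^ 5)) + 10 * L ^ 2 := by
          have := mul_le_mul_of_nonneg_left h4 (show 0 ≤ 10 * L ^ 2 by positivity)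
          linarith
      _ ≤ _ := by linarith
  linarith

end Pool.Agent.FI
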